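import Mathlib

namespace Pool.Agent.Results.MP_4780e6_al.OneSided

def star' {R : Type*} [Ring R] {v : ℕ} (M : Matrix (Fin v) (Fin v) Rˣ) : Matrix (Fin v) (Fin v) R :=
  Matrix.of fun i j => ((M j i)⁻¹ : Rˣ)

def val' {R : Type*} [Ring R] {v : ℕ} (M : Matrix (Fin v) (Fin v) Rˣ) : Matrix (Fin v) (Fin v) R :=
  Matrix.of fun i j => (M i j : R)

abbrev R0 := DualNumber (ZMod 3) × ZMod 7

def u : R0ˣ := ⟨(⟨1, 1⟩, 2), (⟨1, -1⟩, 4), by ext <;> simp <;> decide, by ext <;> simp <;> decide⟩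
def w : R0ˣ := ⟨(1, 2), (1, 4), by ext <;> simp <;> decide, by ext <;> simp <;> decide⟩

theorem result : ∃ (R : Type) (_ : Ring R) (v : ℕ) (N : Subgroup Rˣ)
    (M : Matrix (Fin v) (Fin v) Rˣ), 2 ≤ v ∧ (v : R) ≠ 0 ∧ (∀ i j, M i j ∈ N) ∧
    val' M * star' M = (v : R) • (1 : Matrix (Fin v) (Fin v) R) ∧
    star' M * val' M ≠ (v : R) • (1 : Matrix (Fin v) (Fin v) R) := by
  refine ⟨R0, inferInstance, 3, ⊤, !![1, 1, 1; 1, u, u⁻¹; 1, w⁻¹, w], by norm_num, ?_,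
    fun _ _ => trivial, ?_, ?_⟩
  · intro h
    have := congrArg Prod.snd h
    revert this; decide
  · ext i j <;> fin_cases i <;> fin_cases j <;>
      simp [val', star', Matrix.mul_apply, Fin.sum_univ_three, u, w] <;> decide
  · intro h
    have := congrArg (fun A : Matrix (Fin 3) (Fin 3) R0 => (A 0 1).1.snd) h
    simp [val', star', Matrix.mul_apply, Fin.sum_univ_three, u, w] at this

end Pool.Agent.Results.MP_4780e6_al.OneSided
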